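import Mathlib

set_option autoImplicit false

/-!
# The EKR conjecture for `k`-sets with prescribed intersections with partition classes is false

`restricted X κ k` is the family `𝓗` of all `k`-subsets `F` of `V` with `|F ∩ X i| ≥ κ i` for all `i`.
The conjecture asserts the EKR property of `𝓗` as soon as `|X i| ≥ 2 κ i` for all `i` and
`|X i| > s + κ i` (`s = k - ∑ κ`) for all but at most one `i` with `κ i > 0`.

It fails for `d = 2`, `n₁ = 4`, `k₁ = 2`, `k = k₂ + 3` (so `s = 1`), and all `k₂ ≥ 0`,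
`n₂ ≥ 2 k₂ + 2`: the members of `𝓗` meeting a fixed 3-subset of `X₁` in at least two elements form
an intersecting family which is larger than every star of `𝓗`.  For these parameters there is no
exceptional index and `2 k ≤ n`.
-/

namespace Pool.Agent.Results.MP_01f920_co.NoEKR

open Finset

/-- The family `𝓗` of all `k`-subsets `F` of `V` with `|F ∩ X i| ≥ κ i` for every `i`. -/
def restricted {V : Type} [Fintype V] [DecidableEq V] {d : ℕ} (X : Fin d → Finset V)
    (κ : Fin d → ℕ) (k : ℕ) : Finset (Finset V) :=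
  univ.filter (fun F => F.card = k ∧ ∀ i, κ i ≤ (F ∩ X i).card)

/-- EKR property: every intersecting subfamily is at most as large as some star `𝓗(x)`
(i.e. `|𝓖| ≤ max_x |𝓗(x)|`). -/
def EKRProperty {V : Type} [Fintype V] [DecidableEq V] (𝓗 : Finset (Finset V)) : Prop :=
  ∀ 𝓖 ⊆ 𝓗, (∀ A ∈ 𝓖, ∀ B ∈ 𝓖, (A ∩ B).Nonempty) →
    ∃ x : V, 𝓖.card ≤ (𝓗.filter (fun F => x ∈ F)).card

/-- `X` is a partition of `V` into the classes `X 0, …, X (d-1)`. -/
def IsPartition {V : Type} [Fintype V] [DecidableEq V] {d : ℕ} (X : Fin d → Finset V) : Prop :=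
  (∀ i j, i ≠ j → Disjoint (X i) (X j)) ∧ ∀ v, ∃ i, v ∈ X i

lemma card_filter_sum {α β : Type} [Fintype α] [DecidableEq α] [Fintype β] [DecidableEq β]
    (P : Finset (α ⊕ β) → Prop) [DecidablePred P] :
    (univ.filter P).card = ∑ A : Finset α, (univ.filter (fun B : Finset β => P (A.disjSum B))).card := by
  rw [Finset.card_filter]
  rw [← Equiv.sum_comp (Finset.sumEquiv (α := α) (β := β)).toEquiv.symm, Fintype.sum_prod_type]
  apply Finset.sum_congr rfl
  intro A _
  rw [Finset.card_filter]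
  apply Finset.sum_congr rfl
  intro B _
  rfl

lemma sum_two {m : ℕ} (P Q : ℕ) (q : Finset (Fin m) → Prop) [DecidablePred q] :
    (∑ A : Finset (Fin m), if q A then (if A.card = 2 then P else if A.card = 3 then Q else 0) else 0)
      = (univ.filter (fun A : Finset (Fin m) => q A ∧ A.card = 2)).card * P +
        (univ.filter (fun A : Finset (Fin m) => q A ∧ A.card = 3)).card * Q := by
  rw [Finset.card_filter, Finset.card_filter, Finset.sum_mul, Finset.sum_mul,
    ← Finset.sum_add_distrib]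
  apply Finset.sum_congr rfl
  intro A _
  by_cases h : q A <;> by_cases h2 : A.card = 2 <;> by_cases h3 : A.card = 3 <;>
    simp [h, h2, h3]

/-- the two classes. -/
def X (m : ℕ) : Fin 2 → Finset (Fin 4 ⊕ Fin m) :=
  ![univ.disjSum ∅, (∅ : Finset (Fin 4)).disjSum univ]

lemma isPartition (m : ℕ) : IsPartition (X m) := by
  constructor
  · intro i j hij
    rw [Finset.disjoint_left]
    rintro (a | a) h1 h2
    · fin_cases i <;> fin_cases j <;> simp [X] at h1 h2 hij
    · fin_cases i <;> fin_cases j <;> simp [X] at h1 h2 hij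
  · rintro (a | a)
    · exact ⟨0, by simp [X]⟩
    · exact ⟨1, by simp [X]⟩

lemma cardX0 (m : ℕ) : (X m 0).card = 4 := by simp [X]
lemma cardX1 (m : ℕ) : (X m 1).card = m := by simp [X]

lemma inter0 (m : ℕ) (A : Finset (Fin 4)) (B : Finset (Fin m)) :
    (A.disjSum B ∩ X m 0).card = A.card := by
  have : A.disjSum B ∩ X m 0 = A.disjSum ∅ := by
    ext x
    rcases x with x | x <;> simp [X]
  rw [this]; simp

lemma inter1 (m : ℕ) (A : Finset (Fin 4)) (B : Finset (Fin m)) :
    (A.disjSum B ∩ X m 1).card = B.card := by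
  have : A.disjSum B ∩ X m 1 = (∅ : Finset (Fin 4)).disjSum B := by
    ext x
    rcases x with x | x <;> simp [X]
  rw [this]; simp

/-- Number of `B` of size `j` with a given extra condition. -/
lemma fiber (m k₂ : ℕ) (r : Finset (Fin m) → Prop) [DecidablePred r] (A : Finset (Fin 4)) :
    (univ.filter (fun B : Finset (Fin m) =>
      (A.card + B.card = k₂ + 3 ∧ 2 ≤ A.card ∧ k₂ ≤ B.card) ∧ r B)).card =
    if A.card = 2 then (univ.filter (fun B : Finset (Fin m) => B.card = k₂ + 1 ∧ r B)).card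
    else if A.card = 3 then (univ.filter (fun B : Finset (Fin m) => B.card = k₂ ∧ r B)).card
    else 0 := by
  split_ifs with h2 h3
  · congr 1
    ext B
    simp only [Finset.mem_filter, Finset.mem_univ, true_and]
    constructor
    · rintro ⟨⟨h, _, _⟩, hr⟩; exact ⟨by omega, hr⟩
    · rintro ⟨h, hr⟩; exact ⟨⟨by omega, by omega, by omega⟩, hr⟩
  · congr 1
    ext B
    simp only [Finset.mem_filter, Finset.mem_univ, true_and]
    constructor
    · rintro ⟨⟨h, _, _⟩, hr⟩; exact ⟨by omega, hr⟩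
    · rintro ⟨h, hr⟩; exact ⟨⟨by omega, by omega, by omega⟩, hr⟩
  · rw [Finset.card_eq_zero, Finset.filter_eq_empty_iff]
    rintro B _ ⟨⟨h, h4, h5⟩, _⟩
    omega

/-- Master counting formula for subfamilies of `𝓗` given by a condition on both parts. -/
lemma count (m k₂ : ℕ) (q : Finset (Fin 4) → Prop) [DecidablePred q]
    (r : Finset (Fin m) → Prop) [DecidablePred r]
    (P : Finset (Fin 4 ⊕ Fin m) → Prop) [DecidablePred P]
    (hP : ∀ A B, P (A.disjSum B) ↔ q A ∧ r B) :
    ((restricted (X m) ![2, k₂] (k₂ + 3)).filter P).card =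
      (univ.filter (fun A : Finset (Fin 4) => q A ∧ A.card = 2)).card *
        (univ.filter (fun B : Finset (Fin m) => B.card = k₂ + 1 ∧ r B)).card +
      (univ.filter (fun A : Finset (Fin 4) => q A ∧ A.card = 3)).card *
        (univ.filter (fun B : Finset (Fin m) => B.card = k₂ ∧ r B)).card := by
  rw [← sum_two]
  unfold restricted
  rw [Finset.filter_filter, card_filter_sum]
  apply Finset.sum_congr rfl
  intro A _
  by_cases hq : q A
  · rw [if_pos hq, ← fiber]
    congr 1
    ext B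
    simp only [Finset.mem_filter, Finset.mem_univ, true_and, hP, hq, Fin.forall_fin_two,
      inter0, inter1, Matrix.cons_val_zero, Matrix.cons_val_one, Finset.card_disjSum, true_and]
  · rw [if_neg hq, Finset.card_eq_zero, Finset.filter_eq_empty_iff]
    rintro B _ ⟨_, h⟩
    exact hq ((hP A B).1 h).1

lemma card_size (m j : ℕ) :
    (univ.filter (fun B : Finset (Fin m) => B.card = j ∧ True)).card = m.choose j := by
  have : (univ.filter (fun B : Finset (Fin m) => B.card = j ∧ True)) = powersetCard j univ := by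
    ext B
    simp [Finset.mem_powersetCard]
  rw [this, Finset.card_powersetCard, Finset.card_univ, Fintype.card_fin]

lemma card_not_mem (m j : ℕ) (z : Fin (m + 1)) :
    (univ.filter (fun B : Finset (Fin (m + 1)) => B.card = j ∧ z ∉ B)).card = m.choose j := by
  have : (univ.filter (fun B : Finset (Fin (m + 1)) => B.card = j ∧ z ∉ B)) =
      powersetCard j (univ.erase z) := by
    ext B
    simp only [Finset.mem_filter, Finset.mem_univ, true_and, Finset.mem_powersetCard]
    constructor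
    · rintro ⟨h1, h2⟩
      refine ⟨?_, h1⟩
      intro x hx
      rw [Finset.mem_erase]
      exact ⟨fun h => h2 (h ▸ hx), Finset.mem_univ _⟩
    · rintro ⟨h1, h2⟩
      exact ⟨h2, fun h => by simpa using h1 h⟩
  rw [this, Finset.card_powersetCard, Finset.card_erase_of_mem (Finset.mem_univ _),
    Finset.card_univ, Fintype.card_fin]
  rfl

lemma card_mem_add (m j : ℕ) (z : Fin (m + 1)) :
    (univ.filter (fun B : Finset (Fin (m + 1)) => B.card = j ∧ z ∈ B)).card + m.choose j
      = (m + 1).choose j := by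
  rw [← card_not_mem m j z, ← card_size (m + 1) j]
  rw [← Finset.card_union_of_disjoint]
  · congr 1
    ext B
    simp only [Finset.mem_union, Finset.mem_filter, Finset.mem_univ, true_and]
    tauto
  · rw [Finset.disjoint_filter]
    rintro B _ ⟨_, h⟩ ⟨_, h'⟩
    exact h' h

/-- For `n₁ = 4`, `k₁ = 2`, `k = k₂ + 3` and `n₂ = m ≥ 2 k₂ + 2` the EKR property fails. -/
lemma no_ekr (k₂ m : ℕ) (hm : 2 * k₂ + 2 ≤ m) :
    ¬ EKRProperty (restricted (X m) ![2, k₂] (k₂ + 3)) := by
  intro h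
  obtain ⟨x, hx⟩ := h ((restricted (X m) ![2, k₂] (k₂ + 3)).filter
    (fun F => 2 ≤ (F.toLeft ∩ {0, 1, 2}).card)) (Finset.filter_subset _ _) (by
      intro A hA B hB
      rw [Finset.mem_filter] at hA hB
      have key : ∀ S T : Finset (Fin 4), 2 ≤ (S ∩ {0, 1, 2}).card → 2 ≤ (T ∩ {0, 1, 2}).card →
          (S ∩ T).Nonempty := by decide +kernel
      obtain ⟨y, hy⟩ := key _ _ hA.2 hB.2
      rw [Finset.mem_inter, Finset.mem_toLeft, Finset.mem_toLeft] at hy
      exact ⟨Sum.inl y, Finset.mem_inter.2 hy⟩)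
  rw [count m k₂ (fun A => 2 ≤ (A ∩ {0, 1, 2}).card) (fun _ => True) _
    (by intro A B; simp)] at hx
  rw [card_size, card_size] at hx
  have c2 : (univ.filter (fun A : Finset (Fin 4) =>
      2 ≤ (A ∩ {0, 1, 2}).card ∧ A.card = 2)).card = 3 := by decide +kernel
  have c3 : (univ.filter (fun A : Finset (Fin 4) =>
      2 ≤ (A ∩ {0, 1, 2}).card ∧ A.card = 3)).card = 4 := by decide +kernel
  rw [c2, c3] at hx
  rcases x with x | z
  · rw [count m k₂ (fun A => x ∈ A) (fun _ => True) _ (by intro A B; simp)] at hx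
    rw [card_size, card_size] at hx
    have d2 : ∀ x, (univ.filter (fun A : Finset (Fin 4) => x ∈ A ∧ A.card = 2)).card = 3 := by
      decide +kernel
    have d3 : ∀ x, (univ.filter (fun A : Finset (Fin 4) => x ∈ A ∧ A.card = 3)).card = 3 := by
      decide +kernel
    rw [d2, d3] at hx
    have : 0 < m.choose k₂ := Nat.choose_pos (by omega)
    omega
  · rw [count m k₂ (fun _ => True) (fun B => z ∈ B) _ (by intro A B; simp)] at hx
    have d2 : (univ.filter (fun A : Finset (Fin 4) => True ∧ A.card = 2)).card = 6 := by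
      decide +kernel
    have d3 : (univ.filter (fun A : Finset (Fin 4) => True ∧ A.card = 3)).card = 4 := by
      decide +kernel
    rw [d2, d3] at hx
    obtain ⟨n, rfl⟩ : ∃ n, m = n + 1 := ⟨m - 1, by omega⟩
    have e1 := card_mem_add n (k₂ + 1) z
    have e2 := card_mem_add n k₂ z
    have hp : 0 < n.choose k₂ := Nat.choose_pos (by omega)
    have e3 : (n + 1).choose (k₂ + 1) = n.choose k₂ + n.choose (k₂ + 1) := Nat.choose_succ_succ _ _
    -- `n.choose k₂ ≤ n.choose (k₂ + 1)`
    have e4 : n.choose k₂ ≤ n.choose (k₂ + 1) := by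
      have h1 : n.choose (k₂ + 1) * (k₂ + 1) = n.choose k₂ * (n - k₂) := Nat.choose_succ_right_eq n k₂
      have h2 : k₂ + 1 ≤ n - k₂ := by omega
      have h3 : n.choose k₂ * (k₂ + 1) ≤ n.choose (k₂ + 1) * (k₂ + 1) := by
        rw [h1]; exact Nat.mul_le_mul_left _ h2
      exact Nat.le_of_mul_le_mul_right h3 (Nat.succ_pos _)
    omega

/-- **The conjecture is false.**

Part 1: the conjecture (every `𝓗` satisfying the hypotheses has the EKR property) fails.

Part 2: for all `k₂ ≥ 0` and `n₂ ≥ 2 k₂ + 2`, every set `V = X₁ ∪ X₂` with `|X₁| = 4`, `|X₂| = n₂`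
of the form `Fin 4 ⊕ Fin n₂` is a counterexample with `κ = (2, k₂)`, `k = k₂ + 3`, for which
`|X i| > s + κ i` for *both* `i` (no exceptional index) and `2 k ≤ |V|`. -/
theorem result :
    (¬ ∀ (V : Type) [Fintype V] [DecidableEq V] (d : ℕ) (X : Fin d → Finset V) (κ : Fin d → ℕ)
        (k : ℕ), 1 ≤ d → IsPartition X → (∀ i, κ i < (X i).card) → ∑ i, κ i ≤ k →
        (∀ i, 2 * κ i ≤ (X i).card) →
        (∃ i₀, ∀ i, i ≠ i₀ → 0 < κ i → (k - ∑ j, κ j) + κ i < (X i).card) →
        EKRProperty (restricted X κ k)) ∧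
    (∀ k₂ n₂ : ℕ, 2 * k₂ + 2 ≤ n₂ → ∃ X : Fin 2 → Finset (Fin 4 ⊕ Fin n₂),
        IsPartition X ∧ (X 0).card = 4 ∧ (X 1).card = n₂ ∧
        (∀ i, ![2, k₂] i < (X i).card) ∧ ∑ i, ![2, k₂] i ≤ k₂ + 3 ∧
        (∀ i, 2 * ![2, k₂] i ≤ (X i).card) ∧
        (∀ i, (k₂ + 3 - ∑ j, ![2, k₂] j) + ![2, k₂] i < (X i).card) ∧
        2 * (k₂ + 3) ≤ Fintype.card (Fin 4 ⊕ Fin n₂) ∧
        ¬ EKRProperty (restricted X ![2, k₂] (k₂ + 3))) := by
  have part2 : ∀ k₂ n₂ : ℕ, 2 * k₂ + 2 ≤ n₂ → ∃ X : Fin 2 → Finset (Fin 4 ⊕ Fin n₂),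
        IsPartition X ∧ (X 0).card = 4 ∧ (X 1).card = n₂ ∧
        (∀ i, ![2, k₂] i < (X i).card) ∧ ∑ i, ![2, k₂] i ≤ k₂ + 3 ∧
        (∀ i, 2 * ![2, k₂] i ≤ (X i).card) ∧
        (∀ i, (k₂ + 3 - ∑ j, ![2, k₂] j) + ![2, k₂] i < (X i).card) ∧
        2 * (k₂ + 3) ≤ Fintype.card (Fin 4 ⊕ Fin n₂) ∧
        ¬ EKRProperty (restricted X ![2, k₂] (k₂ + 3)) := by
    intro k₂ n₂ hn
    have h0 := cardX0 n₂
    have h1 := cardX1 n₂
    refine ⟨X n₂, isPartition n₂, h0, h1, ?_, ?_, ?_, ?_, ?_, no_ekr k₂ n₂ hn⟩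
    · rw [Fin.forall_fin_two, h0, h1]
      simp; omega
    · simp [Fin.sum_univ_two]; omega
    · rw [Fin.forall_fin_two, h0, h1]
      simp; omega
    · rw [Fin.forall_fin_two, h0, h1]
      simp [Fin.sum_univ_two]; omega
    · simp; omega
  refine ⟨?_, part2⟩
  intro H
  obtain ⟨X, hX, -, -, h1, h2, h3, h4, -, h5⟩ := part2 1 5 (by norm_num)
  exact h5 (H _ 2 X ![2, 1] 4 (by norm_num) hX h1 h2 h3 ⟨0, fun i _ _ => h4 i⟩)

end Pool.Agent.Results.MP_01f920_co.NoEKR
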